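import Pool.Agent.Run7.h310.RNOps

open Run7.h310.RN

universe u

/-- Q1 for every `K` with a map with totally disconnected fibres to a product of a space of
weight at most `κ` and a Radon-Nikodym compact space; `κ` is an arbitrary cardinal, such as the
continuum. -/
theorem Pool.Agent.Results.MP_9bfcae_gt.LightMaps.result :
    ∀ (κ : Cardinal.{u}) (K : Type u) [TopologicalSpace K],
      (IsRNImage K ∨ IsQuasiRN K) →
      (∀ (N : Type u) [TopologicalSpace N] [T2Space N] (f : K → N), Continuous f →
        Function.Surjective f → weight N ≤ κ → IsRN N) →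
      (∃ (M R : Type u) (_ : TopologicalSpace M) (_ : TopologicalSpace R),
        T2Space M ∧ weight M ≤ κ ∧ IsRN R ∧
        ∃ p : K → M × R, Continuous p ∧ ∀ z, IsTotallyDisconnected (p ⁻¹' {z})) →
      IsRN K := by
  intro κ K _ hK hrefl hex
  have hKq : IsQuasiRN K := by
    rcases hK with h | h
    · obtain ⟨hKt, R, _, hR, q, hq, hqs⟩ := h
      exact hR.isQuasiRN.image q hq hqs
    · exact h
  obtain ⟨M, R, _, _, hM, hw, hR, p, hp, hfib⟩ := hex
  have hN : IsRN (Set.range (fun k => (p k).1)) := by
    refine hrefl _ (Set.rangeFactorization (fun k => (p k).1)) ?_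
      Set.rangeFactorization_surjective ?_
    · exact Continuous.subtype_mk (continuous_fst.comp hp) _
    · exact (weight_le_of_inducing Topology.IsInducing.subtypeVal).trans hw
  refine isRN_of_light hKq (hN.prod hR)
    (fun k => (Set.rangeFactorization (fun k => (p k).1) k, (p k).2)) ?_ ?_
  · exact (Continuous.subtype_mk (continuous_fst.comp hp) _).prodMk (continuous_snd.comp hp)
  · rintro ⟨⟨m, hm⟩, r⟩ t ht htc
    refine hfib (m, r) t ?_ htc
    intro k hk
    have h1 := ht hk
    have h2 : (Set.rangeFactorization (fun k => (p k).1) k, (p k).2) =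
        ((⟨m, hm⟩ : Set.range (fun k => (p k).1)), r) := h1
    obtain ⟨h3, h4⟩ := Prod.mk.inj h2
    have h5 : (p k).1 = m := congrArg Subtype.val h3
    exact Prod.ext h5 h4
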