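import Pool.Agent.Run7.h310.RNOps

open Run7.h310.RN

universe u

/-- Q2 for every `K` with a map `p` with totally disconnected fibres to a product `M × R`, where
the first coordinate of `p` is onto the space `M` of weight exactly `κ` and `R` is a continuous
image of a Radon-Nikodym compact space; `κ` is an arbitrary cardinal, such as the continuum. -/
theorem Pool.Agent.Results.MP_9bfcae_gt.LightMapsImages.result :
    ∀ (κ : Cardinal.{u}) (K : Type u) [TopologicalSpace K],
      IsQuasiRN K →
      (∀ (N : Type u) [TopologicalSpace N] [T2Space N] (f : K → N), Continuous f →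
        Function.Surjective f → weight N = κ → IsRNImage N) →
      (∃ (M R : Type u) (_ : TopologicalSpace M) (_ : TopologicalSpace R),
        T2Space M ∧ weight M = κ ∧ IsRNImage R ∧
        ∃ p : K → M × R, Continuous p ∧ Function.Surjective (fun k => (p k).1) ∧
          ∀ z, IsTotallyDisconnected (p ⁻¹' {z})) →
      IsRNImage K := by
  intro κ K _ hK hrefl hex
  obtain ⟨M, R, _, _, hM, hw, hR, p, hp, hps, hfib⟩ := hex
  have hN : IsRNImage M := hrefl M (fun k => (p k).1) (continuous_fst.comp hp) hps hw
  exact isRNImage_of_light hK (hN.prod hR) p hp hfib
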